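import Pool.Agent.Q308.TwoInt.Core

/-!
# The reduction from 3SAT: from a choice of states to a comparable set of edges
-/

namespace Pool.Agent.Q308.TwoInt

variable (m G : ℕ) (s : ℕ → ℕ → ℕ)

/-- The chosen state of the group `g` in the block `t`. -/
def sig (t g : ℕ) : ℕ := if t = 0 then 0 else if t ≤ 4 * m then s ((t - 1) / 4) g else 0

/-- The edge of the comparable set at the position `c` of the group `g` in the block `2 l + 1`. -/
def edgeAt (x : ℕ × ℕ × ℕ) : ℕ × ℕ :=
  if x.2.2 = sig m s (2 * x.1 + 1) x.2.1 then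
    (pos G (2 * x.1) x.2.1 (sig m s (2 * x.1) x.2.1), pos G (2 * x.1 + 1) x.2.1 x.2.2)
  else (pos G (2 * x.1 + 1) x.2.1 x.2.2, pos G (2 * x.1 + 1 + 1) x.2.1 x.2.2)

/-- The positions in the blocks of odd number. -/
def oddPos : Finset (ℕ × ℕ × ℕ) :=
  (Finset.range (2 * m) ×ˢ Finset.range G ×ˢ Finset.range 6) ∪
    ({2 * m} ×ˢ Finset.range G ×ˢ {0})

variable {m G s}

theorem mem_oddPos {x : ℕ × ℕ × ℕ} : x ∈ oddPos m G ↔
    x.2.1 < G ∧ ((x.1 < 2 * m ∧ x.2.2 < 6) ∨ (x.1 = 2 * m ∧ x.2.2 = 0)) := by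
  unfold oddPos
  simp only [Finset.mem_union, Finset.mem_product, Finset.mem_range, Finset.mem_singleton]
  tauto

theorem card_oddPos : (oddPos m G).card = G * (12 * m + 1) := by
  unfold oddPos
  rw [Finset.card_union_of_disjoint]
  · simp only [Finset.card_product, Finset.card_range, Finset.card_singleton]
    ring
  · rw [Finset.disjoint_left]
    intro x hx hx'
    simp only [Finset.mem_product, Finset.mem_range, Finset.mem_singleton] at hx hx'
    omega

theorem sig_lt (hs6 : ∀ j < m, ∀ g < G, s j g < 6) {t g : ℕ} (hg : g < G) : sig m s t g < 6 := by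
  unfold sig
  split_ifs with h1 h2
  · omega
  · exact hs6 _ (by omega) _ hg
  · omega

theorem sig_half (hsh : ∀ j < m, ∀ g < G, ∀ g' < G, s j g / 2 = s j g' / 2) {t g g' : ℕ}
    (hg : g < G) (hg' : g' < G) : sig m s t g / 2 = sig m s t g' / 2 := by
  unfold sig
  split_ifs with h1 h2
  · rfl
  · exact hsh _ (by omega) _ hg _ hg'
  · rfl

theorem sig_succ {l g : ℕ} (h : l < 2 * m) : sig m s (2 * l + 1 + 1) g = sig m s (2 * l + 1) g := by
  unfold sig
  rw [if_neg (by omega), if_pos (by omega), if_neg (by omega), if_pos (by omega)]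
  congr 1
  omega

theorem pos_sig_lt (hsh : ∀ j < m, ∀ g < G, ∀ g' < G, s j g / 2 = s j g' / 2) {t g g' : ℕ}
    (hg : g < g') (hg' : g' < G) : pos G t g (sig m s t g) < pos G t g' (sig m s t g') :=
  pos_mono_group hg hg' (sig_half hsh (by omega) hg')

theorem pos_shift {l g c g' c' : ℕ} (hg : g < G) (hg' : g' < G)
    (h : pos G (2 * l + 1) g c < pos G (2 * l + 1) g' c') :
    pos G (2 * l + 1 + 1) g c < pos G (2 * l + 1 + 1) g' c' := by
  rw [pos_lt_iff hg hg'] at h ⊢
  unfold cA at h ⊢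
  have e1 : (2 * l + 1 + 1 + 1) / 2 % 2 = (2 * l + 1 + 1) / 2 % 2 := by omega
  rw [e1]
  split_ifs at h ⊢ <;> omega

theorem pos_ne_of_ne {t g c t' g' c' : ℕ} (hg : g < G) (hg' : g' < G) (hc : c < 6)
    (hc' : c' < 6) (h : ¬ (t = t' ∧ g = g' ∧ c = c')) : pos G t g c ≠ pos G t' g' c' :=
  fun he => h (pos_inj hg hg' hc hc' he)

theorem cmp_edgeAt (hs6 : ∀ j < m, ∀ g < G, s j g < 6)
    (hsh : ∀ j < m, ∀ g < G, ∀ g' < G, s j g / 2 = s j g' / 2)
    {x y : ℕ × ℕ × ℕ} (hx : x ∈ oddPos m G) (hy : y ∈ oddPos m G) (hxy : x ≠ y) :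
    Cmp (edgeAt m G s x) (edgeAt m G s y) := by
  obtain ⟨l, g, c⟩ := x
  obtain ⟨l', g', c'⟩ := y
  rw [mem_oddPos] at hx hy
  simp only at hx hy
  obtain ⟨hg, hx⟩ := hx
  obtain ⟨hg', hy⟩ := hy
  have hc : c < 6 := by omega
  have hc' : c' < 6 := by omega
  have hlast : ∀ g c, c = 0 → c = sig m s (2 * (2 * m) + 1) g := by
    intro g c h
    unfold sig
    rw [if_neg (by omega), if_neg (by omega)]
    exact h
  -- mixed case
  have mixed : ∀ l g c l' g' c', g < G → g' < G → c < 6 → c' < 6 → l' < 2 * m →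
      c = sig m s (2 * l + 1) g → c' ≠ sig m s (2 * l' + 1) g' →
      Cmp (pos G (2 * l) g (sig m s (2 * l) g), pos G (2 * l + 1) g c)
        (pos G (2 * l' + 1) g' c', pos G (2 * l' + 1 + 1) g' c') := by
    intro l g c l' g' c' hg hg' hc hc' hl' h1 h2
    have hs := sig_lt (t := 2 * l) hs6 hg
    refine ⟨?_, ?_, ?_⟩
    · refine pos_ne_of_ne hg hg' hs hc' ?_
      rintro ⟨e1, rfl, e3⟩
      apply h2
      rw [← sig_succ hl', ← e1]
      exact e3.symm
    · refine pos_ne_of_ne hg hg' hc hc' ?_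
      rintro ⟨e1, rfl, rfl⟩
      obtain rfl : l = l' := by omega
      exact h2 h1
    · simp only
      rcases Nat.lt_or_ge l' l with h | h
      · right
        exact ⟨pos_lt_of_lt hg' hc' (by omega), pos_lt_of_lt hg' hc' (by omega)⟩
      · left
        exact ⟨pos_lt_of_lt hg hs (by omega), pos_lt_of_lt hg hc (by omega)⟩
  unfold edgeAt
  simp only
  split_ifs with h1 h2 h2
  · -- in, in
    have hs := sig_lt (t := 2 * l) hs6 hg
    have hs' := sig_lt (t := 2 * l') hs6 hg'
    refine ⟨?_, ?_, ?_⟩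
    · exact pos_ne_of_ne hg hg' hs hc' (by omega)
    · exact pos_ne_of_ne hg hg' hc hs' (by omega)
    · simp only
      rcases lt_trichotomy l l' with h | rfl | h
      · exact Or.inl ⟨pos_lt_of_lt hg hs (by omega), pos_lt_of_lt hg hc (by omega)⟩
      · rw [h1, h2]
        rcases lt_trichotomy g g' with h | rfl | h
        · exact Or.inl ⟨pos_sig_lt hsh h hg', pos_sig_lt hsh h hg'⟩
        · exfalso
          apply hxy
          rw [h1, h2]
        · exact Or.inr ⟨pos_sig_lt hsh h hg, pos_sig_lt hsh h hg⟩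
      · exact Or.inr ⟨pos_lt_of_lt hg' hs' (by omega), pos_lt_of_lt hg' hc' (by omega)⟩
  · -- in, out
    refine mixed l g c l' g' c' hg hg' hc hc' ?_ h1 h2
    rcases hy with hy | ⟨hy, hy'⟩
    · exact hy.1
    · subst hy
      exact absurd (hlast g' c' hy') h2
  · -- out, in
    refine (mixed l' g' c' l g c hg' hg hc' hc ?_ h2 h1).symm
    rcases hx with hx | ⟨hx, hx'⟩
    · exact hx.1
    · subst hx
      exact absurd (hlast g c hx') h1
  · -- out, out
    refine ⟨?_, ?_, ?_⟩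
    · exact pos_ne_of_ne hg hg' hc hc' (by omega)
    · exact pos_ne_of_ne hg hg' hc hc' (by omega)
    · simp only
      rcases lt_trichotomy l l' with h | rfl | h
      · exact Or.inl ⟨pos_lt_of_lt hg hc (by omega), pos_lt_of_lt hg hc (by omega)⟩
      · have hne : pos G (2 * l + 1) g c ≠ pos G (2 * l + 1) g' c' := by
          refine pos_ne_of_ne hg hg' hc hc' ?_
          rintro ⟨_, rfl, rfl⟩
          exact hxy rfl
        rcases Nat.lt_or_gt_of_ne hne with h | h
        · exact Or.inl ⟨h, pos_shift hg hg' h⟩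
        · exact Or.inr ⟨h, pos_shift hg' hg h⟩
      · exact Or.inr ⟨pos_lt_of_lt hg' hc' (by omega), pos_lt_of_lt hg' hc' (by omega)⟩

theorem isEdge_edgeAt {ok : ℕ → ℕ → ℕ → ℕ → Prop} {al : ℕ → ℕ → ℕ → Prop} (hm : 0 < m)
    (hok : OkSpec m ok al) (hal : ∀ j < m, ∀ g < G, al j g (s j g))
    (hpar : ∀ j < m, ∀ g < G, s j g % 2 = s 0 g % 2)
    (hs6 : ∀ j < m, ∀ g < G, s j g < 6) {x : ℕ × ℕ × ℕ} (hx : x ∈ oddPos m G) :
    IsEdge m G ok (edgeAt m G s x) := by
  obtain ⟨l, g, c⟩ := x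
  rw [mem_oddPos] at hx
  simp only at hx
  obtain ⟨hg, hx⟩ := hx
  have hc : c < 6 := by omega
  unfold edgeAt
  simp only
  split_ifs with h1
  · refine ⟨2 * l, g, sig m s (2 * l) g, c, by omega, hg, sig_lt hs6 hg, hc, ?_, rfl⟩
    rw [h1]
    rcases Nat.eq_zero_or_pos l with rfl | h0
    · rw [Nat.mul_zero, hok.zero]
      have e1 : sig m s 0 g = 0 := by unfold sig; rw [if_pos rfl]
      have e2 : sig m s (0 + 1) g = s 0 g := by
        unfold sig; rw [if_neg (by omega), if_pos (by omega)]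
      rw [e2]
      exact ⟨e1, hal 0 hm g hg⟩
    · rcases Nat.lt_or_ge l (2 * m) with hl | hl
      · have e1 : sig m s (2 * l) g = s ((2 * l - 1) / 4) g := by
          unfold sig; rw [if_neg (by omega), if_pos (by omega)]
        have e2 : sig m s (2 * l + 1) g = s (2 * l / 4) g := by
          unfold sig
          rw [if_neg (by omega), if_pos (by omega), Nat.add_sub_cancel]
        rw [e1, e2]
        rcases Nat.mod_two_eq_zero_or_one l with h2 | h2
        · obtain ⟨j, rfl⟩ : ∃ j, l = 2 * (j + 1) := ⟨l / 2 - 1, by omega⟩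
          have e3 : 2 * (2 * (j + 1)) = 4 * (j + 1) := by ring
          have e4 : (4 * (j + 1) - 1) / 4 = j := by omega
          have e5 : 4 * (j + 1) / 4 = j + 1 := by omega
          rw [e3, e4, e5, hok.change _ _ _ _ (by omega) (by omega)]
          exact ⟨(hpar j (by omega) g hg).trans (hpar (j + 1) (by omega) g hg).symm,
            hal (j + 1) (by omega) g hg⟩
        · rw [hok.keep _ _ _ _ (by omega)]
          congr 1
          omega
      · obtain rfl : l = 2 * m := by omega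
        have e : 2 * (2 * m) = 4 * m := by ring
        rw [e, hok.last]
        unfold sig
        rw [if_neg (by omega), if_neg (by omega)]
  · have hl : l < 2 * m := by
      rcases hx with hx | ⟨rfl, rfl⟩
      · exact hx.1
      · exfalso
        apply h1
        unfold sig
        rw [if_neg (by omega), if_neg (by omega)]
    refine ⟨2 * l + 1, g, c, c, by omega, hg, hc, hc, ?_, rfl⟩
    rw [hok.keep _ _ _ _ (by omega)]

/-- From a choice of states to a large comparable set of edges. -/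
theorem build {ok : ℕ → ℕ → ℕ → ℕ → Prop} {al : ℕ → ℕ → ℕ → Prop} (hm : 0 < m)
    (hok : OkSpec m ok al) (hal : ∀ j < m, ∀ g < G, al j g (s j g))
    (hpar : ∀ j < m, ∀ g < G, s j g % 2 = s 0 g % 2)
    (hsh : ∀ j < m, ∀ g < G, ∀ g' < G, s j g / 2 = s j g' / 2)
    (hs6 : ∀ j < m, ∀ g < G, s j g < 6) :
    ∃ M : Finset (ℕ × ℕ), (∀ e ∈ M, IsEdge m G ok e) ∧
      (∀ e ∈ M, ∀ f ∈ M, e ≠ f → Cmp e f) ∧ G * (12 * m + 1) ≤ M.card := by
  refine ⟨(oddPos m G).image (edgeAt m G s), ?_, ?_, ?_⟩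
  · intro e he
    obtain ⟨x, hx, rfl⟩ := Finset.mem_image.1 he
    exact isEdge_edgeAt hm hok hal hpar hs6 hx
  · intro e he f hf hef
    obtain ⟨x, hx, rfl⟩ := Finset.mem_image.1 he
    obtain ⟨y, hy, rfl⟩ := Finset.mem_image.1 hf
    exact cmp_edgeAt hs6 hsh hx hy (fun h => hef (by rw [h]))
  · rw [Finset.card_image_of_injOn, card_oddPos]
    intro x hx y hy hxy
    by_contra hne
    have h := (cmp_edgeAt hs6 hsh hx hy hne).2.2
    rw [hxy] at h
    omega

end Pool.Agent.Q308.TwoInt
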