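import Mathlib

/-!
# The reduction from 3SAT: combinatorics of the positions
-/

namespace Pool.Agent.Q308.TwoInt

/-- The first coordinate of a position. -/
def cA (t c : ℕ) : ℕ := 3 * t + (if (t + 1) / 2 % 2 = 1 then c / 2 else 2 - c / 2)

/-- The position of the state `c` of the group `g` in the block `t`. -/
def pos (G t g c : ℕ) : ℕ := cA t c * (2 * G) + (2 * g + c % 2)

theorem pos_lt_of_cA {G t g c t' g' c' : ℕ} (hg : g < G) (h : cA t c < cA t' c') :
    pos G t g c < pos G t' g' c' := by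
  unfold pos
  have h1 : (cA t c + 1) * (2 * G) ≤ cA t' c' * (2 * G) := Nat.mul_le_mul_right _ h
  rw [Nat.add_mul] at h1
  omega

theorem cA_lt {t c t' c' : ℕ} (h : t < t') : cA t c < cA t' c' ∨ 6 ≤ c := by
  unfold cA
  split_ifs <;> omega

theorem pos_lt_of_lt {G t g c t' g' c' : ℕ} (hg : g < G) (hc : c < 6) (h : t < t') :
    pos G t g c < pos G t' g' c' :=
  pos_lt_of_cA hg ((cA_lt h).resolve_right (by omega))

theorem pos_lt_iff {G t g c t' g' c' : ℕ} (hg : g < G) (hg' : g' < G) :
    pos G t g c < pos G t' g' c' ↔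
      cA t c < cA t' c' ∨ (cA t c = cA t' c' ∧ 2 * g + c % 2 < 2 * g' + c' % 2) := by
  constructor
  · intro h
    rcases lt_trichotomy (cA t c) (cA t' c') with h1 | h1 | h1
    · exact Or.inl h1
    · right
      refine ⟨h1, ?_⟩
      unfold pos at h
      rw [h1] at h
      omega
    · exact absurd (pos_lt_of_cA (g' := g) hg' h1) (by omega)
  · rintro (h | ⟨h1, h2⟩)
    · exact pos_lt_of_cA hg h
    · unfold pos
      rw [h1]
      omega

theorem pos_inj {G t g c t' g' c' : ℕ} (hg : g < G) (hg' : g' < G) (hc : c < 6) (hc' : c' < 6)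
    (h : pos G t g c = pos G t' g' c') : t = t' ∧ g = g' ∧ c = c' := by
  have h1 : ¬ pos G t g c < pos G t' g' c' := by omega
  have h2 : ¬ pos G t' g' c' < pos G t g c := by omega
  rw [pos_lt_iff hg hg'] at h1
  rw [pos_lt_iff hg' hg] at h2
  have h3 : cA t c = cA t' c' := by omega
  have h4 : t = t' := by
    unfold cA at h3
    split_ifs at h3 <;> omega
  subst h4
  have h5 : c / 2 = c' / 2 := by
    unfold cA at h3
    split_ifs at h3 <;> omega
  omega

theorem pos_mono_group {G t g c g' c' : ℕ} (hg : g < g') (hg' : g' < G)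
    (h : c / 2 = c' / 2) : pos G t g c < pos G t g' c' := by
  rw [pos_lt_iff (by omega) hg']
  right
  constructor
  · unfold cA; rw [h]
  · omega

/-- The two edges have no common end, and none is nested in the other one. -/
def Cmp (e f : ℕ × ℕ) : Prop :=
  e.1 ≠ f.2 ∧ e.2 ≠ f.1 ∧ ((e.1 < f.1 ∧ e.2 < f.2) ∨ (f.1 < e.1 ∧ f.2 < e.2))

theorem Cmp.symm {e f : ℕ × ℕ} (h : Cmp e f) : Cmp f e := by
  unfold Cmp at *
  omega

section Abstract

variable (m G : ℕ) (ok : ℕ → ℕ → ℕ → ℕ → Prop)

/-- An edge of the graph. -/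
def IsEdge (e : ℕ × ℕ) : Prop :=
  ∃ t g c c', t ≤ 4 * m ∧ g < G ∧ c < 6 ∧ c' < 6 ∧ ok t g c c' ∧
    e = (pos G t g c, pos G (t + 1) g c')

/-- The conditions on the allowed moves, for clause conditions `al j g c`. -/
structure OkSpec (al : ℕ → ℕ → ℕ → Prop) : Prop where
  zero : ∀ g c c', ok 0 g c c' ↔ c = 0 ∧ al 0 g c'
  last : ∀ g c c', ok (4 * m) g c c' ↔ c' = 0
  change : ∀ j g c c', 0 < j → j < m → (ok (4 * j) g c c' ↔ c % 2 = c' % 2 ∧ al j g c')
  keep : ∀ t g c c', t % 4 ≠ 0 → (ok t g c c' ↔ c = c')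

variable {m G ok}

/-- The set of all positions. -/
def verts (m G : ℕ) : Finset ℕ :=
  ((Finset.range G).image (fun g => pos G 0 g 0) ∪
    (Finset.Icc 1 (4 * m) ×ˢ Finset.range G ×ˢ Finset.range 6).image
      (fun x => pos G x.1 x.2.1 x.2.2)) ∪
    (Finset.range G).image (fun g => pos G (4 * m + 1) g 0)

theorem card_verts (m G : ℕ) : (verts m G).card ≤ 2 * (G * (12 * m + 1)) := by
  unfold verts
  refine (Finset.card_union_le _ _).trans ?_
  refine (Nat.add_le_add_right (Finset.card_union_le _ _) _).trans ?_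
  have h1 := Finset.card_image_le (s := Finset.range G) (f := fun g => pos G 0 g 0)
  have h2 := Finset.card_image_le (s := Finset.range G) (f := fun g => pos G (4 * m + 1) g 0)
  have h3 := Finset.card_image_le
    (s := Finset.Icc 1 (4 * m) ×ˢ Finset.range G ×ˢ Finset.range 6)
    (f := fun x => pos G x.1 x.2.1 x.2.2)
  rw [Finset.card_product, Finset.card_product] at h3
  simp only [Finset.card_range, Nat.card_Icc, Nat.add_sub_cancel] at h1 h2 h3
  have : 2 * (G * (12 * m + 1)) = 4 * m * (G * 6) + G + G := by ring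
  omega

theorem fst_mem_verts {al : ℕ → ℕ → ℕ → Prop} (hok : OkSpec m ok al) {e : ℕ × ℕ}
    (h : IsEdge m G ok e) : e.1 ∈ verts m G := by
  obtain ⟨t, g, c, c', ht, hg, hc, hc', ho, rfl⟩ := h
  unfold verts
  rw [Finset.mem_union, Finset.mem_union]
  left
  rcases Nat.eq_zero_or_pos t with rfl | h0
  · left
    obtain ⟨rfl, _⟩ := (hok.zero _ _ _).1 ho
    exact Finset.mem_image.2 ⟨g, Finset.mem_range.2 hg, rfl⟩
  · right
    refine Finset.mem_image.2 ⟨(t, g, c), ?_, rfl⟩
    simp only [Finset.mem_product, Finset.mem_Icc, Finset.mem_range]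
    exact ⟨⟨h0, ht⟩, hg, hc⟩

theorem snd_mem_verts {al : ℕ → ℕ → ℕ → Prop} (hok : OkSpec m ok al) {e : ℕ × ℕ}
    (h : IsEdge m G ok e) : e.2 ∈ verts m G := by
  obtain ⟨t, g, c, c', ht, hg, hc, hc', ho, rfl⟩ := h
  unfold verts
  rw [Finset.mem_union, Finset.mem_union]
  rcases Nat.lt_or_ge t (4 * m) with h0 | h0
  · left; right
    refine Finset.mem_image.2 ⟨(t + 1, g, c'), ?_, rfl⟩
    simp only [Finset.mem_product, Finset.mem_Icc, Finset.mem_range]
    exact ⟨⟨by omega, by omega⟩, hg, hc'⟩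
  · right
    obtain rfl : t = 4 * m := by omega
    obtain rfl := (hok.last _ _ _).1 ho
    exact Finset.mem_image.2 ⟨g, Finset.mem_range.2 hg, rfl⟩

/-- A large comparable set of edges covers all positions. -/
theorem covers {al : ℕ → ℕ → ℕ → Prop} (hok : OkSpec m ok al) {M : Finset (ℕ × ℕ)}
    (hM : ∀ e ∈ M, IsEdge m G ok e) (hC : ∀ e ∈ M, ∀ f ∈ M, e ≠ f → Cmp e f)
    (hcard : G * (12 * m + 1) ≤ M.card) {x : ℕ} (hx : x ∈ verts m G) :
    (∃ e ∈ M, e.1 = x) ∨ (∃ e ∈ M, e.2 = x) := by
  have hL : (M.image Prod.fst).card = M.card := by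
    refine Finset.card_image_of_injOn ?_
    intro e he f hf hef
    by_contra hne
    have := hC e he f hf hne
    unfold Cmp at this
    omega
  have hR : (M.image Prod.snd).card = M.card := by
    refine Finset.card_image_of_injOn ?_
    intro e he f hf hef
    by_contra hne
    have := hC e he f hf hne
    unfold Cmp at this
    omega
  have hlt : ∀ e ∈ M, e.1 < e.2 := by
    intro e he
    obtain ⟨t, g, c, c', ht, hg, hc, hc', ho, rfl⟩ := hM e he
    exact pos_lt_of_lt hg hc (by omega)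
  have hD : Disjoint (M.image Prod.fst) (M.image Prod.snd) := by
    rw [Finset.disjoint_left]
    intro y hy hy'
    obtain ⟨e, he, rfl⟩ := Finset.mem_image.1 hy
    obtain ⟨f, hf, hfe⟩ := Finset.mem_image.1 hy'
    by_cases hef : e = f
    · subst hef
      have := hlt e he
      omega
    · have := (hC e he f hf hef).1
      omega
  have hsub : M.image Prod.fst ∪ M.image Prod.snd ⊆ verts m G := by
    intro y hy
    rcases Finset.mem_union.1 hy with hy | hy
    · obtain ⟨e, he, rfl⟩ := Finset.mem_image.1 hy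
      exact fst_mem_verts hok (hM e he)
    · obtain ⟨e, he, rfl⟩ := Finset.mem_image.1 hy
      exact snd_mem_verts hok (hM e he)
  have heq := Finset.eq_of_subset_of_card_le hsub (by
    rw [Finset.card_union_of_disjoint hD, hL, hR]
    have := card_verts m G
    omega)
  rw [← heq, Finset.mem_union] at hx
  rcases hx with hx | hx
  · obtain ⟨e, he, h⟩ := Finset.mem_image.1 hx
    exact Or.inl ⟨e, he, h⟩
  · obtain ⟨e, he, h⟩ := Finset.mem_image.1 hx
    exact Or.inr ⟨e, he, h⟩

/-- From a large comparable set of edges to a choice of states. -/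
theorem extract {al : ℕ → ℕ → ℕ → Prop} (hm : 0 < m) (hok : OkSpec m ok al)
    {M : Finset (ℕ × ℕ)}
    (hM : ∀ e ∈ M, IsEdge m G ok e) (hC : ∀ e ∈ M, ∀ f ∈ M, e ≠ f → Cmp e f)
    (hcard : G * (12 * m + 1) ≤ M.card) :
    ∃ S : ℕ → ℕ → ℕ,
      (∀ j < m, ∀ g < G, al j g (S j g)) ∧
      (∀ j < m, ∀ g < G, S j g % 2 = S 0 g % 2) ∧
      (∀ j < m, ∀ g < G, ∀ g' < G, S j g / 2 = S j g' / 2) ∧
      (∀ j < m, ∀ g < G, S j g < 6) := by
  -- the relation
  let E : ℕ → ℕ → ℕ → ℕ → Prop := fun t g c c' => (pos G t g c, pos G (t + 1) g c') ∈ M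
  have P1 : ∀ {t g c c'}, g < G → c < 6 → c' < 6 → E t g c c' → t ≤ 4 * m ∧ ok t g c c' := by
    intro t g c c' hg hc hc' h
    obtain ⟨t1, g1, c1, c1', ht1, hg1, hc1, hc1', ho, he⟩ := hM _ h
    rw [Prod.mk.injEq] at he
    obtain ⟨rfl, rfl, rfl⟩ := pos_inj hg hg1 hc hc1 he.1
    obtain ⟨_, _, rfl⟩ := pos_inj hg hg1 hc' hc1' he.2
    exact ⟨ht1, ho⟩
  have P2 : ∀ {t g c c' c''}, g < G → c < 6 → c' < 6 → c'' < 6 → E t g c c' → E t g c c'' →
      c' = c'' := by
    intro t g c c' c'' hg hc hc' hc'' h h'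
    by_contra hne
    have h1 : (pos G t g c, pos G (t + 1) g c') ≠ (pos G t g c, pos G (t + 1) g c'') := by
      intro heq
      rw [Prod.mk.injEq] at heq
      exact hne (pos_inj hg hg hc' hc'' heq.2).2.2
    have := hC _ h _ h' h1
    unfold Cmp at this
    simp only at this
    omega
  have P3 : ∀ {t g c c' d}, g < G → c < 6 → c' < 6 → d < 6 → E t g c c' → E t g d c' →
      c = d := by
    intro t g c c' d hg hc hc' hd h h'
    by_contra hne
    have h1 : (pos G t g c, pos G (t + 1) g c') ≠ (pos G t g d, pos G (t + 1) g c') := by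
      intro heq
      rw [Prod.mk.injEq] at heq
      exact hne (pos_inj hg hg hc hd heq.1).2.2
    have := hC _ h _ h' h1
    unfold Cmp at this
    simp only at this
    omega
  have P4 : ∀ {t g c c' c''}, g < G → c < 6 → c' < 6 → c'' < 6 → E t g c c' →
      ¬ E (t + 1) g c' c'' := by
    intro t g c c' c'' hg hc hc' hc'' h h'
    have h1 : (pos G t g c, pos G (t + 1) g c') ≠ (pos G (t + 1) g c', pos G (t + 1 + 1) g c'') := by
      intro heq
      rw [Prod.mk.injEq] at heq
      have := pos_inj hg hg hc hc' heq.1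
      omega
    exact (hC _ h _ h' h1).2.1 rfl
  have P5 : ∀ {t g c}, pos G t g c ∈ verts m G → g < G → c < 6 →
      (∃ c' < 6, E t g c c') ∨ (∃ t' c', t' + 1 = t ∧ c' < 6 ∧ E t' g c' c) := by
    intro t g c hv hg hc
    rcases covers hok hM hC hcard hv with ⟨e, he, h⟩ | ⟨e, he, h⟩
    · left
      obtain ⟨t1, g1, c1, c1', ht1, hg1, hc1, hc1', ho, rfl⟩ := hM _ he
      obtain ⟨rfl, rfl, rfl⟩ := pos_inj hg1 hg hc1 hc h
      exact ⟨c1', hc1', he⟩
    · right
      obtain ⟨t1, g1, c1, c1', ht1, hg1, hc1, hc1', ho, rfl⟩ := hM _ he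
      obtain ⟨rfl, rfl, rfl⟩ := pos_inj hg1 hg hc1' hc h
      exact ⟨t1, c1, rfl, hc1, he⟩
  have P6 : ∀ {t g c c' g' d d'}, E t g c c' → E t g' d d' →
      pos G t g c < pos G t g' d → pos G (t + 1) g c' < pos G (t + 1) g' d' := by
    intro t g c c' g' d d' h h' hlt
    have h1 : (pos G t g c, pos G (t + 1) g c') ≠ (pos G t g' d, pos G (t + 1) g' d') := by
      intro heq
      rw [Prod.mk.injEq] at heq
      omega
    have := hC _ h _ h' h1
    unfold Cmp at this
    simp only at this
    omega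
  have V0 : ∀ g < G, pos G 0 g 0 ∈ verts m G := by
    intro g hg
    unfold verts
    rw [Finset.mem_union, Finset.mem_union]
    exact Or.inl (Or.inl (Finset.mem_image.2 ⟨g, Finset.mem_range.2 hg, rfl⟩))
  have V1 : ∀ t g c, 1 ≤ t → t ≤ 4 * m → g < G → c < 6 → pos G t g c ∈ verts m G := by
    intro t g c h1 h2 hg hc
    unfold verts
    rw [Finset.mem_union, Finset.mem_union]
    refine Or.inl (Or.inr (Finset.mem_image.2 ⟨(t, g, c), ?_, rfl⟩))
    simp only [Finset.mem_product, Finset.mem_Icc, Finset.mem_range]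
    exact ⟨⟨h1, h2⟩, hg, hc⟩
  -- exactly one edge in the even stages
  have step : ∀ l, l < 2 * m → ∀ g < G, ∀ c c', c < 6 → c' < 6 → E (2 * l) g c c' →
      (∀ d d', d < 6 → d' < 6 → E (2 * l) g d d' → d = c ∧ d' = c') →
      ∃ c'' < 6, E (2 * (l + 1)) g c' c'' ∧
        ∀ d d', d < 6 → d' < 6 → E (2 * (l + 1)) g d d' → d = c' ∧ d' = c'' := by
    intro l hl g hg c c' hc hc' hE hu
    have k1 : ∀ d < 6, d ≠ c' → E (2 * l + 1) g d d := by
      intro d hd hne
      rcases P5 (V1 (2 * l + 1) g d (by omega) (by omega) hg hd) hg hd with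
        ⟨d', hd', h⟩ | ⟨t', d', ht', hd', h⟩
      · have h2 := (P1 hg hd hd' h).2
        rw [hok.keep _ _ _ _ (by omega)] at h2
        rw [← h2] at h
        exact h
      · obtain rfl : t' = 2 * l := by omega
        exact absurd (hu d' d hd' hd h).2 hne
    have k2 : ∀ d < 6, E (2 * l + 1) g d c' → False := by
      intro d hd h
      have h2 := (P1 hg hd hc' h).2
      rw [hok.keep _ _ _ _ (by omega)] at h2
      rw [h2] at h
      exact P4 hg hc hc' hc' hE h
    have e2 : 2 * (l + 1) = 2 * l + 1 + 1 := by ring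
    rw [e2]
    rcases P5 (V1 (2 * l + 1 + 1) g c' (by omega) (by omega) hg hc') hg hc' with
        ⟨d', hd', h⟩ | ⟨t', d', ht', hd', h⟩
    · refine ⟨d', hd', h, ?_⟩
      intro x x' hx hx' hxx
      by_cases hxc : x = c'
      · subst hxc
        exact ⟨rfl, P2 hg hx hx' hd' hxx h⟩
      · exact absurd hxx (P4 hg hx hx hx' (k1 x hx hxc))
    · obtain rfl : t' = 2 * l + 1 := by omega
      exact (k2 d' hd' h).elim
  have base : ∀ g < G, ∃ c' < 6, E 0 g 0 c' ∧
      ∀ d d', d < 6 → d' < 6 → E 0 g d d' → d = 0 ∧ d' = c' := by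
    intro g hg
    rcases P5 (V0 g hg) hg (by norm_num) with ⟨d', hd', h⟩ | ⟨t', d', ht', hd', h⟩
    · refine ⟨d', hd', h, ?_⟩
      intro x x' hx hx' hxx
      have h2 := ((hok.zero _ _ _).1 (P1 hg hx hx' hxx).2).1
      subst h2
      exact ⟨rfl, P2 hg hx hx' hd' hxx h⟩
    · omega
  -- the chosen states
  have ex : ∀ g, ∃ s : ℕ → ℕ, g < G → (E 0 g 0 (s 0) ∧
      ∀ l ≤ 2 * m, s l < 6 ∧ (l < 2 * m → E (2 * (l + 1)) g (s l) (s (l + 1)))) := by
    intro g
    by_cases hg : g < G
    · obtain ⟨c0, hc0, h0, hu0⟩ := base g hg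
      -- build pairs recursively
      have key : ∀ l, l ≤ 2 * m → ∃ s : ℕ → ℕ, E 0 g 0 (s 0) ∧ (∀ i ≤ l, s i < 6) ∧
          (∀ i < l, E (2 * (i + 1)) g (s i) (s (i + 1))) ∧
          ∃ b < 6, E (2 * l) g b (s l) ∧
            ∀ d d', d < 6 → d' < 6 → E (2 * l) g d d' → d = b ∧ d' = s l := by
        intro l
        induction l with
        | zero =>
          intro _
          refine ⟨fun _ => c0, h0, fun i _ => hc0, fun i hi => absurd hi (by omega), 0,
            by norm_num, h0, ?_⟩
          intro d d' hd hd' hdd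
          exact hu0 d d' hd hd' hdd
        | succ l ih =>
          intro hl
          obtain ⟨s, hs0, hs6, hsE, b, hb, hbE, hbu⟩ := ih (by omega)
          obtain ⟨c'', hc'', hE'', hu''⟩ := step l (by omega) g hg b (s l) hb (hs6 l le_rfl) hbE hbu
          refine ⟨fun i => if i = l + 1 then c'' else s i, ?_, ?_, ?_, s l, hs6 l le_rfl, ?_, ?_⟩
          · simpa using hs0
          · intro i hi
            simp only
            split_ifs with h
            · exact hc''
            · exact hs6 i (by omega)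
          · intro i hi
            simp only
            rw [if_neg (by omega)]
            split_ifs with h
            · obtain rfl : i = l := by omega
              exact hE''
            · exact hsE i (by omega)
          · simpa using hE''
          · intro d d' hd hd' hdd
            have := hu'' d d' hd hd' hdd
            simpa using this
      obtain ⟨s, hs0, hs6, hsE, _⟩ := key (2 * m) le_rfl
      exact ⟨s, fun _ => ⟨hs0, fun l hl => ⟨hs6 l hl, fun h => hsE l h⟩⟩⟩
    · exact ⟨fun _ => 0, fun h => absurd h hg⟩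
  choose s hs using ex
  have hs6 : ∀ g < G, ∀ l ≤ 2 * m, s g l < 6 := fun g hg l hl => ((hs g hg).2 l hl).1
  have hsE : ∀ g < G, ∀ l < 2 * m, E (2 * (l + 1)) g (s g l) (s g (l + 1)) :=
    fun g hg l hl => ((hs g hg).2 l hl.le).2 hl
  have keep : ∀ g < G, ∀ l < 2 * m, l % 2 = 0 → s g (l + 1) = s g l := by
    intro g hg l hl h2
    have h := (P1 hg (hs6 g hg l hl.le) (hs6 g hg (l + 1) (by omega)) (hsE g hg l hl)).2
    rw [hok.keep _ _ _ _ (by omega)] at h
    exact h.symm
  have chg : ∀ g < G, ∀ j, j + 1 < m → s g (2 * j + 1) % 2 = s g (2 * j + 2) % 2 ∧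
      al (j + 1) g (s g (2 * j + 2)) := by
    intro g hg j hj
    have h := (P1 hg (hs6 g hg (2 * j + 1) (by omega)) (hs6 g hg (2 * j + 1 + 1) (by omega))
      (hsE g hg (2 * j + 1) (by omega))).2
    have e : 2 * (2 * j + 1 + 1) = 4 * (j + 1) := by ring
    rw [e, hok.change _ _ _ _ (by omega) hj] at h
    exact h
  have ord : ∀ l < 2 * m, ∀ g g', g < g' → g' < G →
      pos G (2 * l + 1) g (s g l) < pos G (2 * l + 1) g' (s g' l) := by
    intro l
    induction l with
    | zero =>
      intro _ g g' hg hg'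
      exact P6 (hs g (by omega)).1 (hs g' hg').1 (pos_mono_group hg hg' rfl)
    | succ l ih =>
      intro hl g g' hg hg'
      have h1 := ih (by omega) g g' hg hg'
      have h2 : pos G (2 * (l + 1)) g (s g l) < pos G (2 * (l + 1)) g' (s g' l) := by
        rw [pos_lt_iff (by omega) hg'] at h1 ⊢
        unfold cA at h1 ⊢
        have e1 : (2 * (l + 1) + 1) / 2 % 2 = (2 * l + 1 + 1) / 2 % 2 := by omega
        rw [e1]
        split_ifs at h1 ⊢ <;> omega
      exact P6 (hsE g (by omega) l (by omega)) (hsE g' hg' l (by omega)) h2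
  refine ⟨fun j g => s g (2 * j), ?_, ?_, ?_, ?_⟩
  · intro j hj g hg
    rcases Nat.eq_zero_or_pos j with rfl | h0
    · exact ((hok.zero _ _ _).1 (P1 hg (by norm_num) (hs6 g hg 0 (by omega)) (hs g hg).1).2).2
    · obtain ⟨j, rfl⟩ : ∃ i, j = i + 1 := ⟨j - 1, by omega⟩
      exact (chg g hg j hj).2
  · intro j
    induction j with
    | zero => intro _ g hg; rfl
    | succ j ih =>
      intro hj g hg
      have h1 := ih (by omega) g hg
      have h2 := (chg g hg j hj).1
      have h3 := keep g hg (2 * j) (by omega) (by omega)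
      have e : 2 * (j + 1) = 2 * j + 2 := by ring
      simp only [e] at h1 ⊢
      rw [← h2, h3]
      exact h1
  · have key : ∀ j < m, ∀ g g', g < g' → g' < G → s g (2 * j) / 2 = s g' (2 * j) / 2 := by
      intro j hj g g' hg hg'
      have h1 := ord (2 * j) (by omega) g g' hg hg'
      have h2 := ord (2 * j + 1) (by omega) g g' hg hg'
      rw [keep g (by omega) (2 * j) (by omega) (by omega),
        keep g' hg' (2 * j) (by omega) (by omega)] at h2
      rw [pos_lt_iff (by omega) hg'] at h1 h2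
      have h3 := hs6 g (by omega) (2 * j) (by omega)
      have h4 := hs6 g' hg' (2 * j) (by omega)
      unfold cA at h1 h2
      have e1 : (2 * (2 * j) + 1 + 1) / 2 % 2 = 1 := by omega
      have e2 : (2 * (2 * j + 1) + 1 + 1) / 2 % 2 = 0 := by omega
      rw [e1] at h1
      rw [e2] at h2
      simp only [if_true] at h1
      simp only [zero_ne_one, if_false] at h2
      omega
    intro j hj g hg g' hg'
    rcases lt_trichotomy g g' with h | h | h
    · exact key j hj g g' h hg'
    · rw [h]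
    · exact (key j hj g' g h hg).symm
  · intro j hj g hg
    exact hs6 g hg (2 * j) (by omega)

end Abstract

end Pool.Agent.Q308.TwoInt
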