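import Pool.Agent.NPC.Defs

/-!
# The 2-interval-pattern problem for the model {<, crossing} over disjoint interval ground sets
-/

namespace Pool.Agent.Q308.TwoInt

/-- A pair of (natural) end points of an interval. -/
abbrev Iv : Type := ℕ × ℕ

/-- A pair of intervals. -/
abbrev TI : Type := Iv × Iv

/-- The closed interval of the real line with the given end points. -/
def seg (I : Iv) : Set ℝ := Set.Icc (I.1 : ℝ) (I.2 : ℝ)

/-- `I < J`: every point of `I` is smaller than every point of `J`. -/
def Before (I J : Iv) : Prop := ∀ x ∈ seg I, ∀ y ∈ seg J, x < y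

/-- A 2-interval: a pair `(I, J)` of nonempty closed intervals with `I < J`. -/
def Is2Interval (D : TI) : Prop := D.1.1 ≤ D.1.2 ∧ D.2.1 ≤ D.2.2 ∧ Before D.1 D.2

/-- The 2-intervals `D` and `D'` have no common point. -/
def AreDisjoint (D D' : TI) : Prop := (seg D.1 ∪ seg D.2) ∩ (seg D'.1 ∪ seg D'.2) = ∅

/-- `D < D'`: with `D = (I₁, J₁)` and `D' = (I₂, J₂)`, this is `I₁ < J₁ < I₂ < J₂`. -/
def Precedes (D D' : TI) : Prop := Before D.1 D.2 ∧ Before D.2 D'.1 ∧ Before D'.1 D'.2

/-- `D` crosses `D'`: with `D = (I₁, J₁)` and `D' = (I₂, J₂)`, this is `I₁ < I₂ < J₁ < J₂`. -/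
def Crosses (D D' : TI) : Prop := Before D.1 D'.1 ∧ Before D'.1 D.2 ∧ Before D.2 D'.2

/-- A set of 2-intervals is comparable for the model {<, crossing}: its members are pairwise
disjoint and of any two distinct ones, one precedes or crosses the other. -/
def Comparable (S : Finset TI) : Prop :=
  ∀ D ∈ S, ∀ D' ∈ S, D ≠ D' → AreDisjoint D D' ∧
    (Precedes D D' ∨ Crosses D D' ∨ Precedes D' D ∨ Crosses D' D)

/-- The interval ground set of a list of 2-intervals. -/
def ground (l : List TI) : Set Iv := {I | ∃ D ∈ l, I = D.1 ∨ I = D.2}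

/-- A finite set of 2-intervals (listed without repetition) whose interval ground set is
disjoint: no two distinct intervals in it intersect. -/
def IsInstance (l : List TI) : Prop :=
  l.Nodup ∧ (∀ D ∈ l, Is2Interval D) ∧
    ∀ I ∈ ground l, ∀ J ∈ ground l, I ≠ J → seg I ∩ seg J = ∅

/-- **The 2-interval-pattern problem for the model {<, crossing} over disjoint interval ground
sets**, as a decision problem: given a finite set of 2-intervals with disjoint interval ground set
and a number `k`, is there a comparable subset with at least `k` members? -/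
def Pattern (x : List TI × ℕ) : Prop :=
  IsInstance x.1 ∧ ∃ S : Finset TI, (∀ D ∈ S, D ∈ x.1) ∧ Comparable S ∧ x.2 ≤ S.card

/-- `S` lists (without repetition) a maximum comparable subset of the set of 2-intervals listed
by `l`. -/
def IsMaximum (l S : List TI) : Prop :=
  S.Nodup ∧ (∀ D ∈ S, D ∈ l) ∧ Comparable S.toFinset ∧
    ∀ T : Finset TI, (∀ D ∈ T, D ∈ l) → Comparable T → T.card ≤ S.length

end Pool.Agent.Q308.TwoInt
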