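import Pool.Agent.Q308.TwoInt.Red
import Pool.Agent.NPC.Dec

/-!
# Polynomial time, membership in NP and the optimisation problem
-/

namespace Pool.Agent.Q308.TwoInt

open Pool.Agent.NPC

section PolyRed

variable {α β γ : Type} [TEnc α] [TEnc β] [TEnc γ]

theorem poly_product {l : α → List β} {l' : α → List γ} (hl : Poly l) (hl' : Poly l') :
    Poly (fun a => (l a).product (l' a)) := by
  refine NPC.Poly.flatMap (F := fun a b => (l' a).map (Prod.mk b)) hl ?_
  refine NPC.Poly.map (F := fun (p : α × β) c => (p.2, c)) (hl'.comp (NPC.Poly.fst NPC.Poly.id)) ?_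
  exact NPC.Poly.pair (NPC.Poly.snd (NPC.Poly.fst NPC.Poly.id)) (NPC.Poly.snd NPC.Poly.id)

theorem poly_pos {G t g c : α → ℕ} (hG : Poly G) (ht : Poly t) (hg : Poly g) (hc : Poly c) :
    Poly (fun a => pos (G a) (t a) (g a) (c a)) := by
  unfold pos cA
  refine NPC.Poly.add (NPC.Poly.mul (NPC.Poly.add (NPC.Poly.mul (NPC.Poly.const 3) ht) ?_)
    (NPC.Poly.mul (NPC.Poly.const 2) hG)) (NPC.Poly.add (NPC.Poly.mul (NPC.Poly.const 2) hg)
    (NPC.Poly.mod hc (NPC.Poly.const 2)))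
  exact NPC.Poly.ite (NPC.Poly.decide_eq (NPC.Poly.mod (NPC.Poly.div (NPC.Poly.add ht (NPC.Poly.const 1)) (NPC.Poly.const 2))
    (NPC.Poly.const 2)) (NPC.Poly.const 1)) (NPC.Poly.div hc (NPC.Poly.const 2))
    (NPC.Poly.sub (NPC.Poly.const 2) (NPC.Poly.div hc (NPC.Poly.const 2)))

theorem poly_lit3 {c : α → Cl} {p : α → ℕ} (hc : Poly c) (hp : Poly p) :
    Poly (fun a => lit3 (c a) (p a)) := by
  unfold lit3
  exact NPC.Poly.ite (NPC.Poly.decide_eq hp (NPC.Poly.const 0)) (NPC.Poly.fst hc)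
    (NPC.Poly.ite (NPC.Poly.decide_eq hp (NPC.Poly.const 1)) (NPC.Poly.fst (NPC.Poly.snd hc)) (NPC.Poly.snd (NPC.Poly.snd hc)))

theorem poly_alB {φ : α → List Cl} {j g c : α → ℕ} (hφ : Poly φ) (hj : Poly j) (hg : Poly g)
    (hc : Poly c) : Poly (fun a => alB (φ a) (j a) (g a) (c a)) := by
  have h1 : Poly (fun a => lit3 ((φ a).getD (j a) cl0) (c a / 2)) :=
    poly_lit3 (NPC.Poly.getD hφ hj (NPC.Poly.const cl0)) (NPC.Poly.div hc (NPC.Poly.const 2))
  unfold alB
  exact NPC.Poly.or (NPC.Poly.not (NPC.Poly.decide_eq (NPC.Poly.snd h1) hg)) (NPC.Poly.decide_eq (NPC.Poly.fst h1)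
    (NPC.Poly.decide_eq (NPC.Poly.mod hc (NPC.Poly.const 2)) (NPC.Poly.const 1)))

theorem poly_okB {φ : α → List Cl} {x : α → ℕ × ℕ × ℕ × ℕ} (hφ : Poly φ) (hx : Poly x) :
    Poly (fun a => okB (φ a) (x a)) := by
  have ht : Poly (fun a => (x a).1) := NPC.Poly.fst hx
  have hg : Poly (fun a => (x a).2.1) := NPC.Poly.fst (NPC.Poly.snd hx)
  have hc : Poly (fun a => (x a).2.2.1) := NPC.Poly.fst (NPC.Poly.snd (NPC.Poly.snd hx))
  have hc' : Poly (fun a => (x a).2.2.2) := NPC.Poly.snd (NPC.Poly.snd (NPC.Poly.snd hx))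
  unfold okB
  refine NPC.Poly.ite (NPC.Poly.decide_eq ht (NPC.Poly.const 0))
    (NPC.Poly.and (NPC.Poly.decide_eq hc (NPC.Poly.const 0)) (poly_alB hφ (NPC.Poly.const 0) hg hc')) ?_
  refine NPC.Poly.ite (NPC.Poly.decide_eq ht (NPC.Poly.mul (NPC.Poly.const 4) (NPC.Poly.length hφ)))
    (NPC.Poly.decide_eq hc' (NPC.Poly.const 0)) ?_
  refine NPC.Poly.ite (NPC.Poly.decide_eq (NPC.Poly.mod ht (NPC.Poly.const 4)) (NPC.Poly.const 0))
    (NPC.Poly.and (NPC.Poly.decide_eq (NPC.Poly.mod hc (NPC.Poly.const 2)) (NPC.Poly.mod hc' (NPC.Poly.const 2)))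
      (poly_alB hφ (NPC.Poly.div ht (NPC.Poly.const 4)) hg hc')) (NPC.Poly.decide_eq hc hc')

theorem poly_quads : Poly quads := by
  unfold quads
  refine poly_product (UPoly.range (UPoly.add (UPoly.mul (UPoly.const 4) (UPoly.length NPC.Poly.id))
    (UPoly.const 1))) (poly_product (UPoly.range (UPoly.mul (UPoly.const 3)
    (UPoly.length NPC.Poly.id))) (poly_product (NPC.Poly.const _) (NPC.Poly.const _)))

theorem poly_edges : Poly edges := by
  unfold edges
  have h1 : Poly (fun φ : List Cl => (quads φ).filter (okB φ)) :=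
    NPC.Poly.filter (p := fun φ x => okB φ x) poly_quads
      (poly_okB (NPC.Poly.fst NPC.Poly.id) (NPC.Poly.snd NPC.Poly.id))
  refine NPC.Poly.map (F := fun (φ : List Cl) x => qEdge (3 * φ.length) x) h1 ?_
  unfold qEdge
  have hG : Poly (fun a : List Cl × ℕ × ℕ × ℕ × ℕ => 3 * a.1.length) :=
    NPC.Poly.mul (NPC.Poly.const 3) (NPC.Poly.length (NPC.Poly.fst NPC.Poly.id))
  have hx : Poly (fun a : List Cl × ℕ × ℕ × ℕ × ℕ => a.2) := NPC.Poly.snd NPC.Poly.id
  exact NPC.Poly.pair (poly_pos hG (NPC.Poly.fst hx) (NPC.Poly.fst (NPC.Poly.snd hx))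
    (NPC.Poly.fst (NPC.Poly.snd (NPC.Poly.snd hx)))) (poly_pos hG (NPC.Poly.add (NPC.Poly.fst hx) (NPC.Poly.const 1))
    (NPC.Poly.fst (NPC.Poly.snd hx)) (NPC.Poly.snd (NPC.Poly.snd (NPC.Poly.snd hx))))

theorem poly_toTI {e : α → ℕ × ℕ} (he : Poly e) : Poly (fun a => toTI (e a)) := by
  unfold toTI
  have h1 : Poly (fun a => 2 * (e a).1) := NPC.Poly.mul (NPC.Poly.const 2) (NPC.Poly.fst he)
  have h2 : Poly (fun a => 2 * (e a).2) := NPC.Poly.mul (NPC.Poly.const 2) (NPC.Poly.snd he)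
  exact NPC.Poly.pair (NPC.Poly.pair h1 (NPC.Poly.add h1 (NPC.Poly.const 1)))
    (NPC.Poly.pair h2 (NPC.Poly.add h2 (NPC.Poly.const 1)))

theorem poly_red : Poly red := by
  unfold red
  refine NPC.Poly.pair (NPC.Poly.map (F := fun (_ : List Cl) e => toTI e) poly_edges
    (poly_toTI (NPC.Poly.snd NPC.Poly.id))) ?_
  exact NPC.Poly.mul (NPC.Poly.mul (NPC.Poly.const 3) (NPC.Poly.length NPC.Poly.id))
    (NPC.Poly.add (NPC.Poly.mul (NPC.Poly.const 12) (NPC.Poly.length NPC.Poly.id)) (NPC.Poly.const 1))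

end PolyRed

/-- The problem is hard, and the instances produced are sets of 2-intervals with disjoint
ground set. -/
theorem hardPr_pattern : HardPr (fun x : List TI × ℕ => IsInstance x.1) Pattern :=
  hardPr_SAT3b.trans poly_red
    (fun φ _ => isInstance_map (nodup_edges φ) edges_lt)
    (fun _ h => red_correct h.2.1 h.2.2)

/-! ### Membership in NP -/

theorem nodup_iff_zip {α : Type} (l : List α) :
    l.Nodup ↔ ∀ p ∈ l.zipIdx, ∀ q ∈ l.zipIdx, p.1 = q.1 → p.2 = q.2 := by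
  rw [List.nodup_iff_injective_getElem]
  constructor
  · rintro h ⟨a, i⟩ hp ⟨b, j⟩ hq hab
    rw [List.mem_zipIdx_iff_getElem?] at hp hq
    simp only at hp hq hab ⊢
    obtain ⟨hi, rfl⟩ := List.getElem?_eq_some_iff.1 hp
    obtain ⟨hj, rfl⟩ := List.getElem?_eq_some_iff.1 hq
    have := @h ⟨i, hi⟩ ⟨j, hj⟩ hab
    simpa using this
  · rintro h ⟨i, hi⟩ ⟨j, hj⟩ hij
    have := h (l[i], i) (List.mem_zipIdx_iff_getElem?.2 (by simp [hi]))
      (l[j], j) (List.mem_zipIdx_iff_getElem?.2 (by simp [hj])) hij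
    simpa using this

/-- The test for lists without repetition. -/
def nodupB (l : List TI) : Bool :=
  l.zipIdx.all (fun p => l.zipIdx.all (fun q => !(decide (p.1 = q.1)) || decide (p.2 = q.2)))

theorem nodupB_iff (l : List TI) : nodupB l = true ↔ l.Nodup := by
  rw [nodup_iff_zip]
  unfold nodupB
  simp only [List.all_eq_true, Bool.or_eq_true, Bool.not_eq_true', decide_eq_false_iff_not,
    decide_eq_true_eq]
  exact forall₄_congr fun p _ q _ => (imp_iff_not_or).symm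

/-- The test for disjoint intervals. -/
def sepB (I J : Iv) : Bool := decide (I.2 < J.1) || decide (J.2 < I.1)

theorem sepB_iff (I J : Iv) : sepB I J = true ↔ (I.2 < J.1 ∨ J.2 < I.1) := by
  unfold sepB
  simp only [Bool.or_eq_true, decide_eq_true_eq]

/-- The test for intervals that are equal or disjoint. -/
def eqSepB (I J : Iv) : Bool := decide (I = J) || sepB I J

/-- The test for instances. -/
def instB (l : List TI) : Bool :=
  (nodupB l && l.all (fun D => (decide (D.1.1 ≤ D.1.2) && decide (D.2.1 ≤ D.2.2)) &&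
    decide (D.1.2 < D.2.1))) && l.all (fun D => l.all (fun D' =>
      (eqSepB D.1 D'.1 && eqSepB D.1 D'.2) && (eqSepB D.2 D'.1 && eqSepB D.2 D'.2)))

theorem instB_iff (l : List TI) : instB l = true ↔ IsInstance l := by
  unfold instB IsInstance
  simp only [Bool.and_eq_true, nodupB_iff, List.all_eq_true, decide_eq_true_eq, and_assoc]
  refine and_congr Iff.rfl ?_
  have e1 : (∀ D ∈ l, Is2Interval D) ↔ ∀ D ∈ l, D.1.1 ≤ D.1.2 ∧ D.2.1 ≤ D.2.2 ∧ D.1.2 < D.2.1 :=
    forall₂_congr fun D _ => is2Interval_iff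
  rw [e1]
  refine and_congr_right fun h => ?_
  have key : ∀ I J : Iv, I.1 ≤ I.2 → J.1 ≤ J.2 →
      (eqSepB I J = true ↔ (I ≠ J → seg I ∩ seg J = ∅)) := by
    intro I J hI hJ
    unfold eqSepB
    rw [Bool.or_eq_true, decide_eq_true_eq, sepB_iff, seg_inter_iff hI hJ]
    tauto
  constructor
  · rintro h2 I ⟨D, hD, hI⟩ J ⟨D', hD', hJ⟩
    obtain ⟨k1, k2, k3, k4⟩ := h2 D hD D' hD'
    obtain ⟨a1, a2, -⟩ := h D hD
    obtain ⟨b1, b2, -⟩ := h D' hD'
    rcases hI with rfl | rfl <;> rcases hJ with rfl | rfl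
    · exact (key _ _ a1 b1).1 k1
    · exact (key _ _ a1 b2).1 k2
    · exact (key _ _ a2 b1).1 k3
    · exact (key _ _ a2 b2).1 k4
  · intro h2 D hD D' hD'
    obtain ⟨a1, a2, -⟩ := h D hD
    obtain ⟨b1, b2, -⟩ := h D' hD'
    exact ⟨(key _ _ a1 b1).2 (h2 _ ⟨D, hD, Or.inl rfl⟩ _ ⟨D', hD', Or.inl rfl⟩),
      (key _ _ a1 b2).2 (h2 _ ⟨D, hD, Or.inl rfl⟩ _ ⟨D', hD', Or.inr rfl⟩),
      (key _ _ a2 b1).2 (h2 _ ⟨D, hD, Or.inr rfl⟩ _ ⟨D', hD', Or.inl rfl⟩),
      (key _ _ a2 b2).2 (h2 _ ⟨D, hD, Or.inr rfl⟩ _ ⟨D', hD', Or.inr rfl⟩)⟩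

/-- The test for comparable pairs. -/
def cmpB (D D' : TI) : Bool :=
  ((sepB D.1 D'.1 && sepB D.1 D'.2) && (sepB D.2 D'.1 && sepB D.2 D'.2)) &&
    ((decide (D.1.2 < D'.1.1) && decide (D.2.2 < D'.2.1)) ||
      (decide (D'.1.2 < D.1.1) && decide (D'.2.2 < D.2.1)))

theorem cmpB_iff (D D' : TI) : cmpB D D' = true ↔ CmpTI D D' := by
  unfold cmpB CmpTI
  simp only [Bool.and_eq_true, Bool.or_eq_true, sepB_iff, decide_eq_true_eq]

/-- The test for membership. -/
def memB (D : TI) (l : List TI) : Bool := l.any (fun D' => decide (D = D'))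

theorem memB_iff (D : TI) (l : List TI) : memB D l = true ↔ D ∈ l := by
  unfold memB
  simp only [List.any_eq_true, decide_eq_true_eq]
  exact ⟨fun ⟨x, hx, h⟩ => h ▸ hx, fun h => ⟨D, h, rfl⟩⟩

/-- The verifier. -/
def ver (x : (List TI × ℕ) × List TI) : Bool :=
  (instB x.1.1 && nodupB x.2) && ((x.2.all (fun D => memB D x.1.1) &&
    decide (x.1.2 ≤ x.2.length)) &&
    x.2.all (fun D => x.2.all (fun D' => decide (D = D') || cmpB D D')))

section PolyVer

variable {α : Type} [TEnc α]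

theorem poly_nodupB {l : α → List TI} (hl : Poly l) : Poly (fun a => nodupB (l a)) := by
  unfold nodupB
  refine NPC.Poly.all (p := fun a (p : TI × ℕ) => (l a).zipIdx.all (fun q =>
    !(decide (p.1 = q.1)) || decide (p.2 = q.2))) (NPC.Poly.zipIdx hl) ?_
  refine NPC.Poly.all (p := fun (x : α × (TI × ℕ)) (q : TI × ℕ) =>
    !(decide (x.2.1 = q.1)) || decide (x.2.2 = q.2)) ((NPC.Poly.zipIdx hl).comp (NPC.Poly.fst NPC.Poly.id)) ?_
  exact NPC.Poly.or (NPC.Poly.not (NPC.Poly.decide_eq (NPC.Poly.fst (NPC.Poly.snd (NPC.Poly.fst NPC.Poly.id)))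
      (NPC.Poly.fst (NPC.Poly.snd NPC.Poly.id)))) (NPC.Poly.decide_eq (NPC.Poly.snd (NPC.Poly.snd (NPC.Poly.fst NPC.Poly.id)))
      (NPC.Poly.snd (NPC.Poly.snd NPC.Poly.id)))

theorem poly_sepB {I J : α → Iv} (hI : Poly I) (hJ : Poly J) :
    Poly (fun a => sepB (I a) (J a)) := by
  unfold sepB
  exact NPC.Poly.or (NPC.Poly.decide_lt (NPC.Poly.snd hI) (NPC.Poly.fst hJ))
    (NPC.Poly.decide_lt (NPC.Poly.snd hJ) (NPC.Poly.fst hI))

theorem poly_eqSepB {I J : α → Iv} (hI : Poly I) (hJ : Poly J) :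
    Poly (fun a => eqSepB (I a) (J a)) := by
  unfold eqSepB
  exact NPC.Poly.or (NPC.Poly.decide_eq hI hJ) (poly_sepB hI hJ)

theorem poly_cmpB {D D' : α → TI} (h : Poly D) (h' : Poly D') :
    Poly (fun a => cmpB (D a) (D' a)) := by
  have a1 := NPC.Poly.fst h
  have a2 := NPC.Poly.snd h
  have b1 := NPC.Poly.fst h'
  have b2 := NPC.Poly.snd h'
  unfold cmpB
  exact NPC.Poly.and (NPC.Poly.and (NPC.Poly.and (poly_sepB a1 b1) (poly_sepB a1 b2))
    (NPC.Poly.and (poly_sepB a2 b1) (poly_sepB a2 b2)))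
    (NPC.Poly.or (NPC.Poly.and (NPC.Poly.decide_lt (NPC.Poly.snd a1) (NPC.Poly.fst b1))
      (NPC.Poly.decide_lt (NPC.Poly.snd a2) (NPC.Poly.fst b2)))
      (NPC.Poly.and (NPC.Poly.decide_lt (NPC.Poly.snd b1) (NPC.Poly.fst a1))
      (NPC.Poly.decide_lt (NPC.Poly.snd b2) (NPC.Poly.fst a2))))

theorem poly_instB {l : α → List TI} (hl : Poly l) : Poly (fun a => instB (l a)) := by
  unfold instB
  refine NPC.Poly.and (NPC.Poly.and (poly_nodupB hl) ?_) ?_
  · refine NPC.Poly.all (p := fun _ (D : TI) => (decide (D.1.1 ≤ D.1.2) && decide (D.2.1 ≤ D.2.2)) &&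
      decide (D.1.2 < D.2.1)) hl ?_
    have h : Poly (fun x : α × TI => x.2) := NPC.Poly.snd NPC.Poly.id
    have a1 := NPC.Poly.fst h
    have a2 := NPC.Poly.snd h
    exact NPC.Poly.and (NPC.Poly.and (NPC.Poly.decide_le (NPC.Poly.fst a1) (NPC.Poly.snd a1))
      (NPC.Poly.decide_le (NPC.Poly.fst a2) (NPC.Poly.snd a2))) (NPC.Poly.decide_lt (NPC.Poly.snd a1) (NPC.Poly.fst a2))
  · refine NPC.Poly.all (p := fun a (D : TI) => (l a).all (fun D' =>
      (eqSepB D.1 D'.1 && eqSepB D.1 D'.2) && (eqSepB D.2 D'.1 && eqSepB D.2 D'.2))) hl ?_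
    refine NPC.Poly.all (p := fun (x : α × TI) (D' : TI) =>
      (eqSepB x.2.1 D'.1 && eqSepB x.2.1 D'.2) && (eqSepB x.2.2 D'.1 && eqSepB x.2.2 D'.2))
      (hl.comp (NPC.Poly.fst NPC.Poly.id)) ?_
    have h : Poly (fun x : (α × TI) × TI => x.1.2) := NPC.Poly.snd (NPC.Poly.fst NPC.Poly.id)
    have h' : Poly (fun x : (α × TI) × TI => x.2) := NPC.Poly.snd NPC.Poly.id
    exact NPC.Poly.and (NPC.Poly.and (poly_eqSepB (NPC.Poly.fst h) (NPC.Poly.fst h'))
      (poly_eqSepB (NPC.Poly.fst h) (NPC.Poly.snd h'))) (NPC.Poly.and (poly_eqSepB (NPC.Poly.snd h) (NPC.Poly.fst h'))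
      (poly_eqSepB (NPC.Poly.snd h) (NPC.Poly.snd h')))

theorem poly_ver : Poly ver := by
  have h1 : Poly (fun x : (List TI × ℕ) × List TI => x.1.1) := NPC.Poly.fst (NPC.Poly.fst NPC.Poly.id)
  have h2 : Poly (fun x : (List TI × ℕ) × List TI => x.1.2) := NPC.Poly.snd (NPC.Poly.fst NPC.Poly.id)
  have h3 : Poly (fun x : (List TI × ℕ) × List TI => x.2) := NPC.Poly.snd NPC.Poly.id
  unfold ver
  refine NPC.Poly.and (NPC.Poly.and (poly_instB h1) (poly_nodupB h3)) (NPC.Poly.and (NPC.Poly.and ?_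
    (NPC.Poly.decide_le h2 (NPC.Poly.length h3))) ?_)
  · refine NPC.Poly.all (p := fun (x : (List TI × ℕ) × List TI) D => memB D x.1.1) h3 ?_
    unfold memB
    refine NPC.Poly.any (p := fun (y : ((List TI × ℕ) × List TI) × TI) D' =>
      decide (y.2 = D')) (h1.comp (NPC.Poly.fst NPC.Poly.id)) ?_
    exact NPC.Poly.decide_eq (NPC.Poly.snd (NPC.Poly.fst NPC.Poly.id)) (NPC.Poly.snd NPC.Poly.id)
  · refine NPC.Poly.all (p := fun (x : (List TI × ℕ) × List TI) D =>
      x.2.all (fun D' => decide (D = D') || cmpB D D')) h3 ?_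
    refine NPC.Poly.all (p := fun (y : ((List TI × ℕ) × List TI) × TI) D' =>
      decide (y.2 = D') || cmpB y.2 D') (h3.comp (NPC.Poly.fst NPC.Poly.id)) ?_
    have h4 : Poly (fun x : (((List TI × ℕ) × List TI) × TI) × TI => x.1.2) :=
      NPC.Poly.snd (NPC.Poly.fst NPC.Poly.id)
    have h5 : Poly (fun x : (((List TI × ℕ) × List TI) × TI) × TI => x.2) := NPC.Poly.snd NPC.Poly.id
    exact NPC.Poly.or (NPC.Poly.decide_eq h4 h5) (poly_cmpB h4 h5)

end PolyVer

theorem sz_sublist {β : Type} [TEnc β] {l l' : List β} (h : l.Sublist l') : sz l ≤ sz l' := by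
  induction h with
  | slnil => exact le_rfl
  | cons a _ ih => simp only [sz_list_cons]; omega
  | cons_cons a _ ih => simp only [sz_list_cons]; omega

theorem inNPP_pattern : InNPP Pattern := by
  refine inNPP_of poly_ver Polynomial.X ?_
  rintro ⟨l, k⟩
  unfold Pattern ver
  simp only [Bool.and_eq_true, decide_eq_true_eq, instB_iff, nodupB_iff, List.all_eq_true,
    Polynomial.eval_X, Bool.or_eq_true, cmpB_iff, memB_iff]
  constructor
  · rintro ⟨hi, S, hS, hC, hk⟩
    have hm : ∀ x, x ∈ l.filter (fun v => decide (v ∈ S)) ↔ x ∈ S := by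
      intro x
      simp only [List.mem_filter, decide_eq_true_eq]
      exact ⟨fun h => h.2, fun h => ⟨hS x h, h⟩⟩
    have hfin : (l.filter (fun v => decide (v ∈ S))).toFinset = S := by
      ext x
      rw [List.mem_toFinset, hm]
    have hnd : (l.filter (fun v => decide (v ∈ S))).Nodup := List.Nodup.filter _ hi.1
    refine ⟨l.filter (fun v => decide (v ∈ S)), ?_, ⟨hi, hnd⟩, ⟨⟨?_, ?_⟩, ?_⟩⟩
    · have := sz_sublist (List.filter_sublist (l := l) (p := fun v => decide (v ∈ S)))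
      simp only [sz_pair]
      omega
    · intro v hv
      exact (List.mem_filter.1 hv).1
    · rw [← List.toFinset_card_of_nodup hnd, hfin]
      exact hk
    · intro D hD D' hD'
      rw [hm] at hD hD'
      by_cases h : D = D'
      · exact Or.inl h
      · exact Or.inr ((pair_comparable_iff (hi.2.1 D (hS D hD)) (hi.2.1 D' (hS D' hD'))).1
          (hC D hD D' hD' h))
  · rintro ⟨w, -, ⟨hi, hnd⟩, ⟨⟨hw, hk⟩, hc⟩⟩
    refine ⟨hi, w.toFinset, fun D hD => hw D (List.mem_toFinset.1 hD), ?_, ?_⟩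
    · intro D hD D' hD' hne
      rw [List.mem_toFinset] at hD hD'
      exact (pair_comparable_iff (hi.2.1 D (hw D hD)) (hi.2.1 D' (hw D' hD'))).2
        ((hc D hD D' hD').resolve_left hne)
    · rw [List.toFinset_card_of_nodup hnd]
      exact hk

/-! ### The optimisation problem -/

theorem pattern_iff_of_isMaximum {l S : List TI} {k : ℕ} (hi : IsInstance l)
    (hS : IsMaximum l S) : Pattern (l, k) ↔ k ≤ S.length := by
  obtain ⟨h1, h2, h3, h4⟩ := hS
  constructor
  · rintro ⟨_, T, hT, hC, hk⟩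
    exact hk.trans (h4 T hT hC)
  · intro hk
    refine ⟨hi, S.toFinset, fun D hD => h2 D (List.mem_toFinset.1 hD), h3, ?_⟩
    rw [List.toFinset_card_of_nodup h1]
    exact hk

/-- A polynomial-time algorithm for the optimisation problem gives `NP ⊆ P`. -/
theorem collapse (f : List Bool → List Bool) (hf : PolyTime f)
    (h : ∀ l : List TI, IsInstance l → ∃ S : List TI, f (bits l) = bits S ∧ IsMaximum l S) :
    ∀ L, InNP L → InP L := by
  intro L hL
  obtain ⟨g, hg, hgp, hgL⟩ := hardPr_pattern L hL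
  have hf' : PC (fun x : List Bool => x) (fun x : List Bool => x) f :=
    H642R2.TMSim.polyTime_toPC hf
  -- the raw code of the set of 2-intervals
  have h1 : PC (fun x : List Bool => x) (bits : List TI → List Bool) (fun x => (g x).1) :=
    PC.comp (g := fun y : List TI × ℕ => y.1) (f := g) (NPC.Poly.fst NPC.Poly.id) hg
  have h2 : PC (fun x : List Bool => x) (fun x : List Bool => x) (fun x => bits (g x).1) := by
    obtain ⟨c, p, h⟩ := h1
    exact ⟨c, p, h⟩
  have h3 : PC (fun x : List Bool => x) (fun x : List Bool => x) (fun x => f (bits (g x).1)) :=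
    PC.comp (g := f) (f := fun x => bits (g x).1) hf' h2
  have h4 : PC (fun x : List Bool => x) (bits : List Bool → List Bool)
      (fun x => f (bits (g x).1)) :=
    PC.comp (g := fun x : List Bool => x) (f := fun x => f (bits (g x).1)) PC.rawIn h3
  have h5 : PC (fun x : List Bool => x) (bits : Option (List TI) → List Bool)
      (fun x => unbits (List TI) (f (bits (g x).1))) :=
    PC.comp (g := unbits (List TI)) (f := fun x => f (bits (g x).1)) poly_unbits h4
  have h6 : PC (fun x : List Bool => x) (bits : Option (List TI) × ℕ → List Bool)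
      (fun x => (unbits (List TI) (f (bits (g x).1)), (g x).2)) := by
    have a1 : PC (fun x : List Bool => x) T.enc
        (fun x => toT (unbits (List TI) (f (bits (g x).1)))) := by
      obtain ⟨c, p, h⟩ := h5
      exact ⟨c, p, h⟩
    have a2 : PC (fun x : List Bool => x) T.enc (fun x => toT (g x).2) := by
      obtain ⟨c, p, h⟩ := PC.comp (g := fun y : List TI × ℕ => y.2) (f := g)
        (NPC.Poly.snd NPC.Poly.id) hg
      exact ⟨c, p, h⟩
    obtain ⟨c, p, h⟩ := PC.node a1 a2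
    exact ⟨c, p, h⟩
  have h7 : Poly (fun y : Option (List TI) × ℕ =>
      match y.1 with | none => false | some S => decide (y.2 ≤ S.length)) := by
    refine (NPC.Poly.optCases (o := fun y : Option (List TI) × ℕ => y.1) (g := fun _ => false)
      (h := fun y S => decide (y.2 ≤ S.length)) (NPC.Poly.fst NPC.Poly.id)
      (NPC.Poly.const _) ?_).congr ?_
    · exact NPC.Poly.decide_le (NPC.Poly.snd (NPC.Poly.fst NPC.Poly.id))
        (NPC.Poly.length (NPC.Poly.snd NPC.Poly.id))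
    · rintro ⟨o, n⟩
      cases o <;> rfl
  have h8 := PC.toPolyTime (PC.comp PC.rawBool (PC.comp h7 h6))
  refine ⟨_, h8, fun x => ?_⟩
  rw [hgL x]
  obtain ⟨S, hS, hmax⟩ := h (g x).1 (hgp x)
  have e1 := pattern_iff_of_isMaximum (k := (g x).2) (hgp x) hmax
  simp only [hS, unbits_bits, List.cons.injEq, and_true, decide_eq_true_eq]
  exact e1

end Pool.Agent.Q308.TwoInt
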