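import Pool.Agent.Q308.TwoInt.Defs
import Pool.Agent.Q308.TwoInt.Core

/-!
# Translation between 2-intervals and edges
-/

namespace Pool.Agent.Q308.TwoInt

theorem before_iff {I J : Iv} (hI : I.1 ≤ I.2) (hJ : J.1 ≤ J.2) : Before I J ↔ I.2 < J.1 := by
  constructor
  · intro h
    have := h (I.2 : ℝ) ⟨by exact_mod_cast hI, le_rfl⟩ (J.1 : ℝ) ⟨le_rfl, by exact_mod_cast hJ⟩
    exact_mod_cast this
  · intro h x hx y hy
    have h1 : (I.2 : ℝ) < J.1 := by exact_mod_cast h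
    exact lt_of_le_of_lt hx.2 (lt_of_lt_of_le h1 hy.1)

theorem seg_inter_iff {I J : Iv} (hI : I.1 ≤ I.2) (hJ : J.1 ≤ J.2) :
    seg I ∩ seg J = ∅ ↔ (I.2 < J.1 ∨ J.2 < I.1) := by
  have a1 : (I.1 : ℝ) ≤ I.2 := by exact_mod_cast hI
  have a2 : (J.1 : ℝ) ≤ J.2 := by exact_mod_cast hJ
  constructor
  · intro h
    by_contra hc
    push Not at hc
    have a3 : (J.1 : ℝ) ≤ I.2 := by exact_mod_cast hc.1
    have a4 : (I.1 : ℝ) ≤ J.2 := by exact_mod_cast hc.2
    have : max (I.1 : ℝ) J.1 ∈ seg I ∩ seg J :=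
      ⟨⟨le_max_left _ _, max_le a1 a3⟩, ⟨le_max_right _ _, max_le a4 a2⟩⟩
    rw [h] at this
    exact this
  · rintro h
    rw [Set.eq_empty_iff_forall_notMem]
    rintro x ⟨h1, h2⟩
    rcases h with h | h
    · have h3 : (I.2 : ℝ) < J.1 := by exact_mod_cast h
      have := h1.2
      have := h2.1
      linarith
    · have h3 : (J.2 : ℝ) < I.1 := by exact_mod_cast h
      have := h1.1
      have := h2.2
      linarith

theorem is2Interval_iff {D : TI} : Is2Interval D ↔ D.1.1 ≤ D.1.2 ∧ D.2.1 ≤ D.2.2 ∧ D.1.2 < D.2.1 := by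
  unfold Is2Interval
  constructor
  · rintro ⟨h1, h2, h3⟩
    exact ⟨h1, h2, (before_iff h1 h2).1 h3⟩
  · rintro ⟨h1, h2, h3⟩
    exact ⟨h1, h2, (before_iff h1 h2).2 h3⟩

theorem areDisjoint_iff {D D' : TI} (h1 : D.1.1 ≤ D.1.2) (h2 : D.2.1 ≤ D.2.2)
    (h3 : D'.1.1 ≤ D'.1.2) (h4 : D'.2.1 ≤ D'.2.2) : AreDisjoint D D' ↔
      ((D.1.2 < D'.1.1 ∨ D'.1.2 < D.1.1) ∧ (D.1.2 < D'.2.1 ∨ D'.2.2 < D.1.1)) ∧
      ((D.2.2 < D'.1.1 ∨ D'.1.2 < D.2.1) ∧ (D.2.2 < D'.2.1 ∨ D'.2.2 < D.2.1)) := by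
  unfold AreDisjoint
  rw [Set.union_inter_distrib_right, Set.inter_union_distrib_left, Set.inter_union_distrib_left,
    Set.union_empty_iff, Set.union_empty_iff, Set.union_empty_iff, seg_inter_iff h1 h3,
    seg_inter_iff h1 h4, seg_inter_iff h2 h3, seg_inter_iff h2 h4]

/-- Comparability of two 2-intervals, as an arithmetic condition. -/
def CmpTI (D D' : TI) : Prop :=
  (((D.1.2 < D'.1.1 ∨ D'.1.2 < D.1.1) ∧ (D.1.2 < D'.2.1 ∨ D'.2.2 < D.1.1)) ∧
      ((D.2.2 < D'.1.1 ∨ D'.1.2 < D.2.1) ∧ (D.2.2 < D'.2.1 ∨ D'.2.2 < D.2.1))) ∧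
    ((D.1.2 < D'.1.1 ∧ D.2.2 < D'.2.1) ∨ (D'.1.2 < D.1.1 ∧ D'.2.2 < D.2.1))

theorem pair_comparable_iff {D D' : TI} (hD : Is2Interval D) (hD' : Is2Interval D') :
    (AreDisjoint D D' ∧ (Precedes D D' ∨ Crosses D D' ∨ Precedes D' D ∨ Crosses D' D)) ↔
      CmpTI D D' := by
  rw [is2Interval_iff] at hD hD'
  obtain ⟨h1, h2, h3⟩ := hD
  obtain ⟨h4, h5, h6⟩ := hD'
  unfold Precedes Crosses CmpTI
  rw [areDisjoint_iff h1 h2 h4 h5, before_iff h1 h2, before_iff h2 h4, before_iff h4 h5,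
    before_iff h1 h4, before_iff h4 h2, before_iff h2 h5, before_iff h5 h1, before_iff h4 h1,
    before_iff h1 h5, before_iff h5 h2]
  omega

/-- The 2-interval of an edge, with unit intervals. -/
def toTI (e : ℕ × ℕ) : TI := ((2 * e.1, 2 * e.1 + 1), (2 * e.2, 2 * e.2 + 1))

/-- The edge of a 2-interval. -/
def ofTI (D : TI) : ℕ × ℕ := (D.1.1 / 2, D.2.1 / 2)

theorem ofTI_toTI (e : ℕ × ℕ) : ofTI (toTI e) = e := by
  unfold ofTI toTI
  ext <;> simp

theorem toTI_injective : Function.Injective toTI := fun e f h => by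
  rw [← ofTI_toTI e, h, ofTI_toTI]

theorem is2Interval_toTI {e : ℕ × ℕ} (h : e.1 < e.2) : Is2Interval (toTI e) := by
  rw [is2Interval_iff]
  unfold toTI
  simp only
  omega

theorem cmpTI_toTI {e f : ℕ × ℕ} (he : e.1 < e.2) (hf : f.1 < f.2) :
    CmpTI (toTI e) (toTI f) ↔ Cmp e f := by
  unfold CmpTI toTI Cmp
  simp only
  omega

theorem comparable_iff {S : Finset TI} (hS : ∀ D ∈ S, Is2Interval D) :
    Comparable S ↔ ∀ D ∈ S, ∀ D' ∈ S, D ≠ D' → CmpTI D D' := by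
  unfold Comparable
  exact forall₅_congr fun D hD D' hD' _ => pair_comparable_iff (hS D hD) (hS D' hD')

/-- The edges in a list, as an instance: a set of 2-intervals with disjoint ground set. -/
theorem isInstance_map {l : List (ℕ × ℕ)} (hn : l.Nodup) (hl : ∀ e ∈ l, e.1 < e.2) :
    IsInstance (l.map toTI) := by
  refine ⟨(List.nodup_map_iff toTI_injective).2 hn, ?_, ?_⟩
  · intro D hD
    obtain ⟨e, he, rfl⟩ := List.mem_map.1 hD
    exact is2Interval_toTI (hl e he)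
  · have key : ∀ I ∈ ground (l.map toTI), ∃ x, I = (2 * x, 2 * x + 1) := by
      rintro I ⟨D, hD, h⟩
      obtain ⟨e, he, rfl⟩ := List.mem_map.1 hD
      rcases h with rfl | rfl
      · exact ⟨e.1, rfl⟩
      · exact ⟨e.2, rfl⟩
    intro I hI J hJ hIJ
    obtain ⟨x, rfl⟩ := key I hI
    obtain ⟨y, rfl⟩ := key J hJ
    rw [seg_inter_iff (by simp) (by simp)]
    have : x ≠ y := by
      rintro rfl
      exact hIJ rfl
    simp only
    omega

/-- Large comparable subsets of an instance made of edges. -/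
theorem exists_comparable_iff {l : List (ℕ × ℕ)} (hl : ∀ e ∈ l, e.1 < e.2) (k : ℕ) :
    (∃ S : Finset TI, (∀ D ∈ S, D ∈ l.map toTI) ∧ Comparable S ∧ k ≤ S.card) ↔
      ∃ M : Finset (ℕ × ℕ), (∀ e ∈ M, e ∈ l) ∧ (∀ e ∈ M, ∀ f ∈ M, e ≠ f → Cmp e f) ∧
        k ≤ M.card := by
  constructor
  · rintro ⟨S, hS, hC, hk⟩
    have h2 : ∀ D ∈ S, Is2Interval D := by
      intro D hD
      obtain ⟨e, he, rfl⟩ := List.mem_map.1 (hS D hD)
      exact is2Interval_toTI (hl e he)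
    rw [comparable_iff h2] at hC
    refine ⟨S.image ofTI, ?_, ?_, ?_⟩
    · intro e0 he0
      obtain ⟨D, hD, rfl⟩ := Finset.mem_image.1 he0
      obtain ⟨e, he, rfl⟩ := List.mem_map.1 (hS D hD)
      rw [ofTI_toTI]
      exact he
    · intro e0 he0 f0 hf0 hef
      obtain ⟨D, hD, rfl⟩ := Finset.mem_image.1 he0
      obtain ⟨D', hD', rfl⟩ := Finset.mem_image.1 hf0
      obtain ⟨e, he, rfl⟩ := List.mem_map.1 (hS D hD)
      obtain ⟨f, hf, rfl⟩ := List.mem_map.1 (hS D' hD')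
      rw [ofTI_toTI, ofTI_toTI] at hef ⊢
      refine (cmpTI_toTI (hl e he) (hl f hf)).1 (hC _ hD _ hD' fun h => hef ?_)
      exact toTI_injective h
    · rw [Finset.card_image_of_injOn]
      · exact hk
      · intro D hD D' hD' h
        obtain ⟨e, he, rfl⟩ := List.mem_map.1 (hS D hD)
        obtain ⟨f, hf, rfl⟩ := List.mem_map.1 (hS D' hD')
        rw [ofTI_toTI, ofTI_toTI] at h
        rw [h]
  · rintro ⟨M, hM, hC, hk⟩
    have h2 : ∀ D ∈ M.image toTI, Is2Interval D := by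
      intro D hD
      obtain ⟨e, he, rfl⟩ := Finset.mem_image.1 hD
      exact is2Interval_toTI (hl e (hM e he))
    refine ⟨M.image toTI, ?_, ?_, ?_⟩
    · intro D hD
      obtain ⟨e, he, rfl⟩ := Finset.mem_image.1 hD
      exact List.mem_map_of_mem (hM e he)
    · rw [comparable_iff h2]
      intro D hD D' hD' hne
      obtain ⟨e, he, rfl⟩ := Finset.mem_image.1 hD
      obtain ⟨f, hf, rfl⟩ := Finset.mem_image.1 hD'
      exact (cmpTI_toTI (hl e (hM e he)) (hl f (hM f hf))).2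
        (hC e he f hf fun h => hne (by rw [h]))
    · rw [Finset.card_image_of_injective _ toTI_injective]
      exact hk

end Pool.Agent.Q308.TwoInt
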