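import Pool.Agent.Q308.TwoInt.Conv
import Pool.Agent.Q308.TwoInt.Geo
import Pool.Agent.NPC.Sat2

/-!
# The reduction from 3SAT: correctness
-/

namespace Pool.Agent.Q308.TwoInt

open Pool.Agent.NPC

/-- Clauses. -/
abbrev Cl : Type := Lit ℕ × Lit ℕ × Lit ℕ

/-- The literals of a clause. -/
def lit3 (c : Cl) (p : ℕ) : Lit ℕ := if p = 0 then c.1 else if p = 1 then c.2.1 else c.2.2

/-- A clause used outside the list. -/
def cl0 : Cl := ((true, 0), (true, 0), (true, 0))

/-- The state `c` (with guess `c / 2` and value `c % 2`) is allowed for the variable `g` at the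
clause `j`: the literal of number `c / 2` of the clause is not a false literal of `g`. -/
def alB (φ : List Cl) (j g c : ℕ) : Bool :=
  !(decide ((lit3 (φ.getD j cl0) (c / 2)).2 = g)) ||
    decide ((lit3 (φ.getD j cl0) (c / 2)).1 = decide (c % 2 = 1))

/-- The allowed moves. -/
def okB (φ : List Cl) (x : ℕ × ℕ × ℕ × ℕ) : Bool :=
  if x.1 = 0 then decide (x.2.2.1 = 0) && alB φ 0 x.2.1 x.2.2.2
  else if x.1 = 4 * φ.length then decide (x.2.2.2 = 0)
  else if x.1 % 4 = 0 then decide (x.2.2.1 % 2 = x.2.2.2 % 2) && alB φ (x.1 / 4) x.2.1 x.2.2.2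
  else decide (x.2.2.1 = x.2.2.2)

/-- All quadruples. -/
def quads (φ : List Cl) : List (ℕ × ℕ × ℕ × ℕ) :=
  (List.range (4 * φ.length + 1)).product ((List.range (3 * φ.length)).product
    ((List.range 6).product (List.range 6)))

/-- The edge of a quadruple. -/
def qEdge (G : ℕ) (x : ℕ × ℕ × ℕ × ℕ) : ℕ × ℕ :=
  (pos G x.1 x.2.1 x.2.2.1, pos G (x.1 + 1) x.2.1 x.2.2.2)

/-- The edges of the ordered graph. -/
def edges (φ : List Cl) : List (ℕ × ℕ) :=
  ((quads φ).filter (okB φ)).map (qEdge (3 * φ.length))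

/-- The reduction. -/
def red (φ : List Cl) : List TI × ℕ :=
  ((edges φ).map toTI, (3 * φ.length) * (12 * φ.length + 1))

theorem mem_quads {φ : List Cl} {x : ℕ × ℕ × ℕ × ℕ} : x ∈ quads φ ↔
    x.1 < 4 * φ.length + 1 ∧ x.2.1 < 3 * φ.length ∧ x.2.2.1 < 6 ∧ x.2.2.2 < 6 := by
  obtain ⟨t, g, c, c'⟩ := x
  have h : ∀ {α β : Type} {l : List α} {l' : List β} {a : α} {b : β},
      (a, b) ∈ l.product l' ↔ a ∈ l ∧ b ∈ l' := by
    intro α β l l' a b
    exact List.mem_product
  unfold quads
  simp only [h, List.mem_range]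

theorem nodup_edges (φ : List Cl) : (edges φ).Nodup := by
  unfold edges
  refine List.Nodup.map_on ?_ (List.Nodup.filter _ ?_)
  · intro x hx y hy hxy
    rw [List.mem_filter, mem_quads] at hx hy
    obtain ⟨⟨_, hg, hc, hc'⟩, _⟩ := hx
    obtain ⟨⟨_, hg1, hc1, hc1'⟩, _⟩ := hy
    unfold qEdge at hxy
    rw [Prod.mk.injEq] at hxy
    obtain ⟨h1, h2, h3⟩ := pos_inj hg hg1 hc hc1 hxy.1
    obtain ⟨_, _, h4⟩ := pos_inj hg hg1 hc' hc1' hxy.2
    ext
    · exact h1
    · exact h2
    · exact h3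
    · exact h4
  · exact List.Nodup.product List.nodup_range (List.Nodup.product List.nodup_range
      (List.Nodup.product List.nodup_range List.nodup_range))

theorem mem_edges {φ : List Cl} {e : ℕ × ℕ} : e ∈ edges φ ↔
    IsEdge φ.length (3 * φ.length) (fun t g c c' => okB φ (t, g, c, c') = true) e := by
  unfold edges IsEdge
  simp only [List.mem_map, List.mem_filter, mem_quads]
  constructor
  · rintro ⟨x, ⟨⟨h1, h2, h3, h4⟩, h5⟩, rfl⟩
    exact ⟨x.1, x.2.1, x.2.2.1, x.2.2.2, by omega, h2, h3, h4, h5, rfl⟩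
  · rintro ⟨t, g, c, c', h1, h2, h3, h4, h5, rfl⟩
    exact ⟨(t, g, c, c'), ⟨⟨by simp only; omega, h2, h3, h4⟩, h5⟩, rfl⟩

theorem edges_lt {φ : List Cl} : ∀ e ∈ edges φ, e.1 < e.2 := by
  intro e he
  obtain ⟨t, g, c, c', ht, hg, hc, hc', ho, rfl⟩ := mem_edges.1 he
  exact pos_lt_of_lt hg hc (by omega)

theorem okSpec {φ : List Cl} (hφ : φ ≠ []) : OkSpec φ.length
    (fun t g c c' => okB φ (t, g, c, c') = true) (fun j g c => alB φ j g c = true) := by
  have h0 : 0 < φ.length := List.length_pos_iff.2 hφ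
  constructor
  · intro g c c'
    unfold okB
    simp only [if_true, Bool.and_eq_true, decide_eq_true_eq]
  · intro g c c'
    unfold okB
    simp only
    rw [if_neg (by omega), if_pos trivial, decide_eq_true_eq]
  · intro j g c c' hj hjm
    unfold okB
    simp only
    rw [if_neg (by omega), if_neg (by omega), if_pos (by omega), Bool.and_eq_true,
      decide_eq_true_eq]
    have : 4 * j / 4 = j := by omega
    rw [this]
  · intro t g c c' ht
    unfold okB
    simp only
    rw [if_neg (by omega), if_neg (by omega), if_neg (by omega), decide_eq_true_eq]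

theorem alB_iff {φ : List Cl} {j g c : ℕ} : alB φ j g c = true ↔
    ((lit3 (φ.getD j cl0) (c / 2)).2 = g → (lit3 (φ.getD j cl0) (c / 2)).1 = decide (c % 2 = 1)) := by
  unfold alB
  simp only [Bool.or_eq_true, Bool.not_eq_true', decide_eq_false_iff_not, decide_eq_true_eq]
  tauto

theorem red_correct {φ : List Cl} (hb : Bounded3 φ) (hφ : φ ≠ []) : SAT3 φ ↔ Pattern (red φ) := by
  have h0 : 0 < φ.length := List.length_pos_iff.2 hφ
  have hinst : IsInstance (red φ).1 := isInstance_map (nodup_edges φ) edges_lt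
  have e1 : Pattern (red φ) ↔ ∃ M : Finset (ℕ × ℕ), (∀ e ∈ M, e ∈ edges φ) ∧
      (∀ e ∈ M, ∀ f ∈ M, e ≠ f → Cmp e f) ∧ (3 * φ.length) * (12 * φ.length + 1) ≤ M.card := by
    rw [← exists_comparable_iff edges_lt]
    exact ⟨fun h => h.2, fun h => ⟨hinst, h⟩⟩
  rw [e1]
  constructor
  · rintro ⟨τ, hτ⟩
    -- choose true literals
    have hp : ∀ j, ∃ p < 3, j < φ.length →
        τ (lit3 (φ.getD j cl0) p).2 = (lit3 (φ.getD j cl0) p).1 := by
      intro j
      by_cases hj : j < φ.length
      · have hmem : φ.getD j cl0 ∈ φ := by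
          rw [List.getD_eq_getElem _ _ hj]
          exact List.getElem_mem hj
        rcases hτ _ hmem with h | h | h
        · exact ⟨0, by norm_num, fun _ => h⟩
        · exact ⟨1, by norm_num, fun _ => h⟩
        · exact ⟨2, by norm_num, fun _ => h⟩
      · exact ⟨0, by norm_num, fun h => absurd h hj⟩
    choose p hp3 hp using hp
    let s : ℕ → ℕ → ℕ := fun j g => 2 * p j + (if τ g = true then 1 else 0)
    have hs1 : ∀ j g, s j g / 2 = p j := by
      intro j g
      simp only [s]
      split_ifs <;> omega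
    have hs2 : ∀ j g, s j g % 2 = if τ g = true then 1 else 0 := by
      intro j g
      simp only [s]
      split_ifs <;> omega
    obtain ⟨M, hM, hC, hk⟩ := build (m := φ.length) (G := 3 * φ.length) (s := s) h0 (okSpec hφ)
      (by
        intro j hj g _
        rw [alB_iff, hs1, hs2]
        intro hg
        rw [← hp j hj, hg]
        cases τ g <;> simp)
      (by intro j _ g _; rw [hs2, hs2])
      (by intro j _ g _ g' _; rw [hs1, hs1])
      (by
        intro j _ g _
        have := hs1 j g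
        have := hp3 j
        omega)
    exact ⟨M, fun e he => mem_edges.2 (hM e he), hC, hk⟩
  · rintro ⟨M, hM, hC, hk⟩
    obtain ⟨S, hS1, hS2, hS3, hS6⟩ := extract (m := φ.length) (G := 3 * φ.length) h0 (okSpec hφ)
      (fun e he => mem_edges.1 (hM e he)) hC hk
    refine ⟨fun g => decide (S 0 g % 2 = 1), ?_⟩
    intro c hc
    obtain ⟨j, hj, rfl⟩ := List.getElem_of_mem hc
    have hb' := hb _ hc
    -- the common guess
    have key : ∀ p, p = S j 0 / 2 → (lit3 φ[j] p).2 < 3 * φ.length →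
        decide (S 0 (lit3 φ[j] p).2 % 2 = 1) = (lit3 φ[j] p).1 := by
      intro p hp hlt
      have h1 := hS1 j hj _ hlt
      rw [alB_iff, List.getD_eq_getElem _ _ hj, ← hS3 j hj 0 (by omega) _ hlt, ← hp,
        hS2 j hj _ hlt] at h1
      exact (h1 rfl).symm
    have h6 := hS6 j hj 0 (by omega)
    have h3 : S j 0 / 2 = 0 ∨ S j 0 / 2 = 1 ∨ S j 0 / 2 = 2 := by omega
    rcases h3 with h | h | h
    · exact Or.inl (key 0 h.symm hb'.1)
    · exact Or.inr (Or.inl (key 1 h.symm hb'.2.1))
    · exact Or.inr (Or.inr (key 2 h.symm hb'.2.2))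

end Pool.Agent.Q308.TwoInt
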